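import Pool.Agent.Q129.SignedJohnson

set_option autoImplicit false

/-!
# The chromatic number of `J_±(n,4,0)` is not linear in `n`

For every `C` the chromatic number of `J_±(n,4,0)` is larger than `C n` for all large `n`.
-/

theorem Pool.Agent.Results.MP_9d843c_co.Superlinear.result :
    ∀ C : ℕ, ∃ n0 : ℕ, ∀ n, n0 ≤ n →
      ((C * n : ℕ) : ℕ∞) < (Q129.SignedJohnson.signedJohnson n 4 0).chromaticNumber := by
  intro C
  obtain ⟨n0, h⟩ := Q129.SignedJohnson.not_colorable C
  refine ⟨n0, fun n hn => ?_⟩
  by_contra hcon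
  push Not at hcon
  exact h n hn (SimpleGraph.chromaticNumber_le_iff_colorable.1 hcon)
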